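import Pool.Agent.Q205.CR.Asm
import Pool.Agent.Q205.CR.Oo
import Pool.Agent.Q205.CR.Ap
import Pool.Agent.Q205.CR.Lb

set_option autoImplicit false

/-!
# No uniform threshold for the complexity relative to all infinite subsets of a set or its complement

Let `Ω` be a number approximated from below which gives weight `2 ^ (-(|p| + |p| / 2 + 2))` to each
halting program `p` (for condition `0`), let `β l` be the stage at which the first `l` bits of the
approximation are final, and let `A` be the union of the intervals `[β (2 i), β (2 i + 1))`.  From an
infinite subset of `A` (or of its complement) one finds, from a stage at which the first `l` bits are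
final (`l` even, or `l` odd) and from the next bit of `Ω`, a stage at which the next bit is final; the
next element of the set is outside the intervals up to the settling of one more bit, which comes for free.
So the first `2 r` bits of `Ω` have complexity at most `r + O(1)` relative to all these sets.  But their
complexity, with or without a fixed number as a condition, is at least `(2 / 3) (2 r) - O(1)`.
-/

namespace Pool.Agent.Results.MP_7b562e_lc.NoUniformThreshold

open Pool.Agent.Q205.CR

/-- Optimal oracle machines and optimal machines for conditional plain complexity exist, and there is a
set `A` such that for all optimal machines `U` and `V`, for every `N` and every constant `c` some string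
`σ` has `sup {C^X(σ) : X ∈ RT12(A)} + c < sup {C(σ | n) : n ≥ N} < ∞`. -/
theorem result : (∃ U : OMachine, OOptimal U) ∧
    (∃ V : List Bool × ℕ →. List Bool, COptimal V) ∧
    ∃ A : Set ℕ, ∀ (U : OMachine) (V : List Bool × ℕ →. List Bool), OOptimal U → COptimal V →
      ∀ N c : ℕ, ∃ σ : List Bool,
        (⨆ X ∈ RT12 A, CX U X σ) + c < ⨆ n ≥ N, CC V σ n ∧ ⨆ n ≥ N, CC V σ n < ⊤ :=
  main Oo.proof1 Oo.proof2 Mc.proof Up.proof Ap.proof Lb.proof

end Pool.Agent.Results.MP_7b562e_lc.NoUniformThreshold
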